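import Mathlib

set_option autoImplicit false

namespace Pool.Agent.H.MP_e13f12_an

open Set Filter Topology Metric MeasureTheory
open scoped ENNReal

noncomputable section

theorem il {S Z : Set ℝ} (h : ∀ s ∈ S, ∀ t ∈ S, s < t → ∃ u ∈ Z, s < u ∧ u < t) : S.encard ≤ Z.encard + 1 := by
  by_cases f : Z.Finite
  swap
  · simp [Set.Infinite.encard_eq f]
  lift Z to Finset ℝ using f
  by_contra a
  rw [encard_coe_eq_coe_finsetCard] at a
  obtain ⟨t, p, q⟩ := exists_subset_encard_eq (k := ((Z.card + 2 : ℕ) : ℕ∞)) (s := S)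
    (by have := Order.add_one_le_of_lt (not_le.1 a); push_cast; rwa [add_assoc] at this)
  lift t to Finset ℝ using finite_of_encard_eq_coe q
  have := Finset.card_le_of_interleaved (s := t) (t := Z) fun x hx y hy l _ => h x (p hx) y (p hy) l
  rw [encard_coe_eq_coe_finsetCard, Nat.cast_inj] at q
  omega

theorem im {g : ℝ → ℝ} (c : Continuous g) {s t : ℝ} (l : s < t) (a : IsLocalMin g s) (b : IsLocalMin g t) :
    ∃ u ∈ Ioo s t, IsMaxOn g (Icc s t) u := by
  obtain ⟨v, p, q⟩ := isCompact_Icc.exists_isMaxOn (nonempty_Icc.2 l.le) c.continuousOn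
  rcases p.1.eq_or_lt with rfl | p1
  · obtain ⟨u, x, y⟩ := ((a.filter_mono nhdsWithin_le_nhds).and (Ioo_mem_nhdsGT l)).exists
    exact ⟨u, y, fun z hz => (q hz).trans x⟩
  rcases p.2.eq_or_lt with rfl | p2
  · obtain ⟨u, x, y⟩ := ((b.filter_mono nhdsWithin_le_nhds).and (Ioo_mem_nhdsLT l)).exists
    exact ⟨u, y, fun z hz => (q hz).trans x⟩
  exact ⟨v, ⟨p1, p2⟩, q⟩

theorem rl {f f' f'' : ℝ → ℝ} (h1 : ∀ x, HasDerivAt f (f' x) x) (h2 : ∀ x, HasDerivAt f' (f'' x) x) :
    {x | f x = 0}.encard + {x | f' x = 0 ∧ 0 < f x * f'' x}.encard ≤ {x | f' x = 0}.encard + 1 := by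
  rw [← encard_union_eq (disjoint_left.2 fun x a b => by simpa [show f x = 0 from a] using b.2)]
  have d : ∀ x, HasDerivAt (fun x => f x * f x) (f' x * f x + f x * f' x) x := fun x => (h1 x).mul (h1 x)
  have e : deriv (fun x => f x * f x) = fun x => f' x * f x + f x * f' x := funext fun x => (d x).deriv
  have m : ∀ s ∈ {x | f x = 0} ∪ {x | f' x = 0 ∧ 0 < f x * f'' x}, IsLocalMin (fun x => f x * f x) s := by
    rintro s (a | ⟨a, b⟩)
    · exact .of_forall fun x => by simp only [show f s = 0 from a, mul_zero]; exact mul_self_nonneg _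
    refine isLocalMin_of_deriv_deriv_pos ?_ (by simp [e, a]) (d s).continuousAt
    rw [e, (((h2 s).fun_mul (h1 s)).fun_add ((h1 s).fun_mul (h2 s))).deriv, a]
    nlinarith
  refine il fun s a t b l => ?_
  obtain ⟨u, p, q⟩ := im (continuous_iff_continuousAt.2 fun x => (d x).continuousAt) l (m s a) (m t b)
  refine ⟨u, ?_, p⟩
  have n := Icc_mem_nhds p.1 p.2
  by_cases z : f u = 0
  · refine IsLocalMin.hasDerivAt_eq_zero (mem_of_superset n fun x hx => ?_) (h1 u)
    have : f x * f x ≤ f u * f u := q hx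
    change f u ≤ f x
    rw [z] at this ⊢
    nlinarith
  have := (q.isLocalMax n).hasDerivAt_eq_zero (d u)
  exact (mul_eq_zero.1 (show f u * f' u = 0 by linarith)).resolve_left z

theorem area {f f' : ℝ → ℝ} {G : Set ℝ} (o : IsOpen G) (hf : ∀ x ∈ G, HasDerivAt f (f' x) x) {L : ℝ} (l : 0 < L)
    (hL : ∀ x ∈ G, L ≤ f' x) : ∃ g : ℝ → ℝ≥0∞, Measurable g ∧ (∀ r, g r ≤ Measure.count {x ∈ G | f x = r}) ∧
      ENNReal.ofReal L * volume G ≤ ∫⁻ r, g r := by
  classical
  obtain ⟨e, he⟩ := exists_surjective_nat (ℚ × ℚ)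
  let J : ℕ → Set ℝ := fun i => if Ioo ((e i).1 : ℝ) (e i).2 ⊆ G then Ioo ((e i).1 : ℝ) (e i).2 else ∅
  have s : ∀ i, J i ⊆ G := fun i => by
    simp only [J]
    split_ifs with h
    exacts [h, empty_subset _]
  have mJ : ∀ i, MeasurableSet (J i) := fun i => by
    simp only [J]
    split_ifs
    exacts [measurableSet_Ioo, .empty]
  have cJ : ∀ i, Convex ℝ (J i) := fun i => by
    simp only [J]
    split_ifs
    exacts [convex_Ioo _ _, convex_empty]
  have u : ⋃ i, J i = G := (iUnion_subset s).antisymm fun x hx => by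
    obtain ⟨a, b, p, q⟩ := mem_nhds_iff_exists_Ioo_subset.1 (o.mem_nhds hx)
    obtain ⟨a', a1, a2⟩ := exists_rat_btwn p.1
    obtain ⟨b', b1, b2⟩ := exists_rat_btwn p.2
    obtain ⟨i, hi⟩ := he (a', b')
    refine mem_iUnion.2 ⟨i, ?_⟩
    simp only [J, hi]
    rw [if_pos ((Ioo_subset_Ioo a1.le b2.le).trans q)]
    exact ⟨a2, b1⟩
  have j : ∀ i, InjOn f (J i) := fun i => (strictMonoOn_of_deriv_pos (cJ i)
    (fun x hx => (hf x (s i hx)).continuousAt.continuousWithinAt) fun x hx => by
      have := s i (interior_subset hx)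
      rw [(hf x this).deriv]
      exact l.trans_le (hL x this)).injOn
  have sD : ∀ i, disjointed J i ⊆ J i := disjointed_subset J
  have mD := MeasurableSet.disjointed mJ
  have mI : ∀ i, MeasurableSet (f '' disjointed J i) := fun i => (mD i).image_of_continuousOn_injOn
    (fun x hx => (hf x (s i (sD i hx))).continuousAt.continuousWithinAt) ((j i).mono (sD i))
  refine ⟨fun r => ∑' i, (f '' disjointed J i).indicator 1 r,
    Measurable.ennreal_tsum fun i => measurable_one.indicator (mI i), fun r => ?_, ?_⟩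
  · refine le_trans ?_ (measure_mono (s := ⋃ i, disjointed J i ∩ {x | f x = r})
      (iUnion_subset fun i x hx => ⟨s i (sD i hx.1), hx.2⟩))
    rw [measure_iUnion (fun a b h => (disjoint_disjointed J h).mono inter_subset_left inter_subset_left)
      fun i => Set.Subsingleton.measurableSet fun x hx y hy => j i (sD i hx.1) (sD i hy.1) (hx.2.trans hy.2.symm)]
    refine ENNReal.tsum_le_tsum fun i => indicator_apply_le' (fun ⟨x, p, q⟩ => ?_) fun _ => zero_le
    rw [Pi.one_apply, ← Measure.count_singleton x]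
    exact measure_mono (singleton_subset_iff.2 ⟨p, q⟩)
  rw [lintegral_tsum fun i => (measurable_one.indicator (mI i)).aemeasurable, ← u, ← iUnion_disjointed,
    measure_iUnion (disjoint_disjointed J) mD, ← ENNReal.tsum_mul_left]
  refine ENNReal.tsum_le_tsum fun i => ?_
  rw [lintegral_indicator (mI i), lintegral_image_eq_lintegral_abs_deriv_mul (mD i)
    (fun x hx => (hf x (s i (sD i hx))).hasDerivWithinAt) ((j i).mono (sD i)), ← setLIntegral_const]
  exact setLIntegral_mono' (mD i) fun x hx => by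
    simpa using ENNReal.ofReal_le_ofReal ((hL x (s i (sD i hx))).trans (le_abs_self _))

/-- Appell sequence of a sequence of moments -/
def ap (m : ℕ → ℝ) : ℕ → ℝ → ℝ
  | 0, _ => m 0
  | n + 1, c => ap (fun k => m (k + 1)) n c + c * ap m n c

theorem apd (n : ℕ) : ∀ (m : ℕ → ℝ) (c : ℝ), HasDerivAt (ap m n) (n * ap m (n - 1) c) c := by
  induction n with
  | zero => exact fun m c => (hasDerivAt_const c (m 0)).congr_deriv (by simp)
  | succ n ih =>
    intro m c
    refine ((ih (fun k => m (k + 1)) c).add ((hasDerivAt_id c).mul (ih m c))).congr_deriv ?_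
    rcases n with - | n
    · simp
    simp only [Nat.add_sub_cancel, ap, id]
    push_cast
    ring

theorem apl (r : ℝ) (n : ℕ) : ∀ (m m' : ℕ → ℝ) (c : ℝ),
    ap (fun k => m k - r * m' k) n c = ap m n c - r * ap m' n c := by
  induction n with
  | zero => exact fun _ _ _ => rfl
  | succ n ih =>
    intro m m' c
    simp only [ap, ih]
    ring

theorem cr {m : ℕ → ℝ} (h : m 0 ≠ 0) (n : ℕ) : {x | ap m (n + 1) x = 0}.encard +
    ∑ j ∈ Finset.range n, {x | ap m (j + 1) x = 0 ∧ 0 < ap m (j + 2) x * ap m j x}.encard ≤ n + 1 := by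
  induction n with
  | zero =>
    have := rl (f := ap m 1) (f' := fun _ => m 0) (f'' := fun _ => 0) (fun x => by simpa [ap] using apd 1 m x)
      fun x => hasDerivAt_const x _
    simpa [h] using this
  | succ n ih =>
    have := rl (f := ap m (n + 2)) (apd (n + 2) m) fun x => (apd (n + 1) m x).const_mul ((n + 2 : ℕ) : ℝ)
    have p : ((n + 2 : ℕ) : ℝ) ≠ 0 := by positivity
    have q : ∀ x, 0 < ap m (n + 2) x * (((n + 2 : ℕ) : ℝ) * (((n + 1 : ℕ) : ℝ) * ap m n x)) ↔
        0 < ap m (n + 2) x * ap m n x := fun x => by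
      rw [mul_left_comm, mul_pos_iff_of_pos_left (by positivity), mul_left_comm, mul_pos_iff_of_pos_left (by positivity)]
    simp only [Nat.add_sub_cancel, show n + 2 - 1 = n + 1 from rfl, mul_eq_zero, p, false_or, q] at this
    rw [Finset.sum_range_succ, add_comm (Finset.sum _ _), ← add_assoc]
    refine (add_le_add_left this _).trans ?_
    rw [add_right_comm]
    push_cast
    exact add_le_add_left ih _

end

end Pool.Agent.H.MP_e13f12_an
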