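import Mathlib
import Pool.Agent.H.MP_e13f12_an.A

set_option autoImplicit false

namespace Pool.Agent.H.MP_e13f12_an

open Set Filter Topology Metric MeasureTheory
open scoped ENNReal

noncomputable section

/-- shifted moments -/
def sh (m : ℕ → ℝ) (k : ℕ) : ℝ := m (k + 1)

/-- the homogeneous condition -/
def Q (a0 a1 a2 b0 b1 b2 : ℝ) : Prop := |a1| < |b1| ∧ b1 ^ 2 < 2 * (a0 * b1 - a1 * b0) ∧ 0 < a2 * b1 - a1 * b2

/-- good parameters -/
def G (m : ℕ → ℝ) (n : ℕ) : Set ℝ :=
  {c | Q (ap m n c) (ap m (n + 1) c) (ap m (n + 2) c) (ap (sh m) n c) (ap (sh m) (n + 1) c) (ap (sh m) (n + 2) c)}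

theorem apc (m : ℕ → ℝ) (n : ℕ) : Continuous (ap m n) := continuous_iff_continuousAt.2 fun c => (apd n m c).continuousAt

theorem oq {Y : Type*} [TopologicalSpace Y] {a0 a1 a2 b0 b1 b2 : Y → ℝ} (h0 : Continuous a0) (h1 : Continuous a1)
    (h2 : Continuous a2) (g0 : Continuous b0) (g1 : Continuous b1) (g2 : Continuous b2) :
    IsOpen {y | Q (a0 y) (a1 y) (a2 y) (b0 y) (b1 y) (b2 y)} :=
  by
    simp only [Q, setOf_and]
    exact (isOpen_lt (by fun_prop) (by fun_prop)).inter ((isOpen_lt (by fun_prop) (by fun_prop)).inter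
      (isOpen_lt (by fun_prop) (by fun_prop)))

theorem oG (m : ℕ → ℝ) (n : ℕ) : IsOpen (G m n) := oq (apc _ _) (apc _ _) (apc _ _) (apc _ _) (apc _ _) (apc _ _)

theorem qs {t a0 a1 a2 b0 b1 b2 : ℝ} (h : 0 < t) (q : Q (t * a0) (t * a1) (t * a2) (t * b0) (t * b1) (t * b2)) :
    Q a0 a1 a2 b0 b1 b2 := by
  obtain ⟨a, b, c⟩ := q
  have p : 0 < t * t := by positivity
  rw [abs_mul, abs_mul] at a
  refine ⟨lt_of_mul_lt_mul_left a (abs_nonneg _), lt_of_mul_lt_mul_left (a := t * t) (by linarith) p.le,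
    lt_of_mul_lt_mul_left (a := t * t) (by linarith) p.le⟩

theorem gn (m : ℕ → ℝ) (n : ℕ) : ∃ g : ℝ → ℝ≥0∞, Measurable g ∧ (∀ r, g r ≤ (Icc (-1 : ℝ) 1).indicator (fun r =>
    ({x | ap (fun k => m k - r * sh m k) (n + 1) x = 0 ∧
      0 < ap (fun k => m k - r * sh m k) (n + 2) x * ap (fun k => m k - r * sh m k) n x}.encard : ℝ≥0∞)) r) ∧
    ENNReal.ofReal ((n + 1) / 2) * volume (G m n) ≤ ∫⁻ r, g r := by
  have nz : ∀ x ∈ G m n, ap (sh m) (n + 1) x ≠ 0 := fun x hx => abs_pos.1 ((abs_nonneg _).trans_lt hx.1)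
  obtain ⟨g, a, b, c⟩ := area (L := (n + 1) / 2) (oG m n)
    (fun x hx => (apd (n + 1) m x).fun_div (apd (n + 1) (sh m) x) (nz x hx)) (by positivity) fun x hx => by
      have := hx.2.1
      have p := nz x hx
      rw [le_div_iff₀ (by positivity)]
      simp only [Nat.add_sub_cancel]
      push_cast
      nlinarith
  refine ⟨g, a, fun r => (b r).trans ?_, c⟩
  by_cases h : r ∈ Icc (-1 : ℝ) 1
  · rw [indicator_of_mem h, ← Measure.count_apply]
    · refine measure_mono fun x ⟨p, q⟩ => ?_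
      have z := nz x p
      have u := p.2.1
      have v := p.2.2
      simp only [mem_setOf_eq, apl, ← q]
      refine ⟨by field_simp; ring, ?_⟩
      have w : 0 < ap (sh m) (n + 1) x ^ 2 := by positivity
      have := div_pos (mul_pos v (show 0 < ap m n x * ap (sh m) (n + 1) x - ap m (n + 1) x * ap (sh m) n x by
        linarith)) w
      refine this.trans_eq ?_
      generalize ap (sh m) (n + 1) x = t at z
      field_simp
    exact (isClosed_eq (apc _ _) continuous_const).measurableSet.inter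
      (isOpen_lt continuous_const ((apc _ _).mul (apc _ _))).measurableSet
  rw [indicator_of_notMem h]
  refine le_of_eq ?_
  convert measure_empty (μ := Measure.count)
  refine eq_empty_of_forall_notMem fun x ⟨p, q⟩ => h (abs_le.1 ?_)
  rw [← q, abs_div]
  exact div_le_one_of_le₀ p.1.le (abs_nonneg _)

theorem sg {m : ℕ → ℝ} (h : m 0 ≠ 0) (M : ℕ) :
    ∑ n ∈ Finset.range M, ENNReal.ofReal ((n + 1) / 2) * volume (G m n) ≤ (M + 1) * 2 := by
  choose g a b c using gn m
  refine (Finset.sum_le_sum fun n _ => c n).trans ?_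
  rw [← lintegral_finsetSum _ fun n _ => a n]
  have z : ∀ᵐ r : ℝ, m 0 - r * m 1 ≠ 0 := by
    refine measure_mono_null (t := {m 0 / m 1}) (fun r p => ?_) (measure_singleton _)
    have q : m 0 - r * m 1 = 0 := by simpa using p
    have : m 1 ≠ 0 := fun l => h (by simpa [l] using q)
    rw [mem_singleton_iff, eq_div_iff this]
    linarith
  refine (lintegral_mono_ae (g := (Icc (-1 : ℝ) 1).indicator fun _ => (M + 1 : ℝ≥0∞)) (z.mono fun r p => ?_)).trans ?_
  · refine (Finset.sum_le_sum fun n _ => b n r).trans ?_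
    by_cases q : r ∈ Icc (-1 : ℝ) 1
    · simp only [indicator_of_mem q]
      have := ENat.toENNReal_le.2 (le_add_self.trans (cr (m := fun k => m k - r * sh m k) p M))
      rw [← ENat.toENNRealRingHom_apply, map_sum] at this
      simpa using this
    simp [indicator_of_notMem q]
  rw [lintegral_indicator measurableSet_Icc, setLIntegral_const, Real.volume_Icc]
  norm_num

/-- bad parameter pairs -/
def Bd (m : ℕ → ℝ) (n : ℕ) : Set (ℝ × ℝ) :=
  {p | p.1 ∈ G m n ∧ |n * p.2 + Real.log (ap (sh m) (n + 1) p.1)| ≤ 1}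

theorem vb (m : ℕ → ℝ) {n : ℕ} (h : 0 < n) : volume (Bd m n) ≤ ENNReal.ofReal (2 / n) * volume (G m n) := by
  have c := (apc (sh m) (n + 1)).measurable
  have a : MeasurableSet (Bd m n) := ((oG m n).measurableSet.preimage measurable_fst).inter
    (measurableSet_le (f := fun p : ℝ × ℝ => |n * p.2 + Real.log (ap (sh m) (n + 1) p.1)|) (by fun_prop) measurable_const)
  rw [Measure.volume_eq_prod, Measure.prod_apply a, ← setLIntegral_const, ← lintegral_indicator (oG m n).measurableSet]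
  refine lintegral_mono fun x => ?_
  by_cases p : x ∈ G m n
  · rw [indicator_of_mem p]
    refine (measure_mono (t := closedBall (-Real.log (ap (sh m) (n + 1) x) / n) (1 / n)) fun b q => ?_).trans ?_
    · have n0 : (0 : ℝ) < n := mod_cast h
      rw [mem_closedBall, Real.dist_eq, show b - _ = (n * b + Real.log (ap (sh m) (n + 1) x)) / n by field_simp; ring,
        abs_div, abs_of_pos n0]
      exact div_le_div_of_nonneg_right q.2 n0.le
    rw [Real.volume_closedBall, mul_one_div]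
  rw [indicator_of_notMem p]
  refine le_of_eq ?_
  convert measure_empty (μ := volume)
  exact eq_empty_of_forall_notMem fun b q => p q.1

theorem fin {m : ℕ → ℝ} (h : m 0 ≠ 0) : ∃ p : ℝ × ℝ, ∃ N, ∀ n ≥ N, p ∉ Bd m n := by
  have s : ∑' j : ℕ, volume (⋃ n ∈ Finset.Ico (2 ^ j) (2 ^ (j + 1)), Bd m n) ≠ ⊤ := by
    refine ne_top_of_le_ne_top ?_ (ENNReal.tsum_le_tsum (g := fun j => ENNReal.ofReal (24 * (1 / 2) ^ j)) fun j =>
      (measure_biUnion_finset_le _ _).trans ?_)
    · exact (summable_geometric_two.mul_left _).tsum_ofReal_ne_top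
    have a := sg h (2 ^ (j + 1))
    refine le_trans (Finset.sum_le_sum (g := fun n : ℕ => ENNReal.ofReal (4 / 4 ^ j) *
      (ENNReal.ofReal ((n + 1) / 2) * volume (G m n))) fun n p => ?_) ?_
    · have l : (2 : ℝ) ^ j ≤ n := mod_cast (Finset.mem_Ico.1 p).1
      have n0 : (0 : ℝ) < n := lt_of_lt_of_le (by positivity) l
      refine (vb m (mod_cast n0)).trans ?_
      rw [← mul_assoc, ← ENNReal.ofReal_mul (by positivity)]
      refine mul_le_mul_left (ENNReal.ofReal_le_ofReal ?_) _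
      rw [div_mul_div_comm, div_le_div_iff₀ n0 (by positivity), show (4 : ℝ) ^ j = 2 ^ j * 2 ^ j by
        rw [← mul_pow]; norm_num]
      nlinarith [show (0 : ℝ) < 2 ^ j by positivity]
    rw [← Finset.mul_sum]
    refine (mul_le_mul_right ((Finset.sum_le_sum_of_subset fun n p => Finset.mem_range.2 (Finset.mem_Ico.1 p).2).trans
      a) _).trans ?_
    rw [show (((2 ^ (j + 1) : ℕ) : ℝ≥0∞) + 1) * 2 = ENNReal.ofReal ((2 ^ (j + 1) + 1) * 2) by
      rw [ENNReal.ofReal_mul (by positivity), ENNReal.ofReal_add (by positivity) (by positivity), ENNReal.ofReal_pow (by positivity)]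
      simp, ← ENNReal.ofReal_mul (by positivity)]
    refine ENNReal.ofReal_le_ofReal ?_
    rw [show (4 : ℝ) ^ j = 2 ^ j * 2 ^ j by rw [← mul_pow]; norm_num, one_div, inv_pow, pow_succ]
    have f : (1 : ℝ) ≤ 2 ^ j := one_le_pow₀ (by norm_num)
    field_simp
    nlinarith
  obtain ⟨p, q⟩ := (ae_eventually_notMem s).exists
  obtain ⟨N, q⟩ := eventually_atTop.1 q
  refine ⟨p, 2 ^ N, fun n l b => q (Nat.log 2 n) (Nat.le_log_of_pow_le (by norm_num) l) (mem_iUnion₂.2 ⟨n, ?_, b⟩)⟩
  exact Finset.mem_Ico.2 ⟨Nat.pow_log_le_self 2 (by have := Nat.two_pow_pos N; omega),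
    Nat.lt_pow_succ_log_self (by norm_num) n⟩

end

end Pool.Agent.H.MP_e13f12_an
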