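import Mathlib
import Pool.Agent.H.MP_e13f12_an.B

set_option autoImplicit false

namespace Pool.Agent.H.MP_e13f12_an

open Set Filter Topology Metric MeasureTheory

variable {X : Type*} [AddCommGroup X] [Module ℝ X] [TopologicalSpace X] [IsTopologicalAddGroup X]
  [ContinuousSMul ℝ X]

theorem it (T : X →L[ℝ] X) (a c : ℝ) (x : X) (n : ℕ) : ∀ (f : X →L[ℝ] ℝ),
    f ((⇑(a • T + (a * c) • ContinuousLinearMap.id ℝ X))^[n] x) = a ^ n * ap (fun k => f (T^[k] x)) n c := by
  induction n with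
  | zero => exact fun f => by simp [ap]
  | succ n ih =>
    intro f
    have := ih (f ∘L T)
    rw [Function.iterate_succ_apply']
    simp only [ContinuousLinearMap.comp_apply] at this
    simp only [ContinuousLinearMap.add_apply, ContinuousLinearMap.smul_apply, map_add, map_smul, smul_eq_mul,
      ContinuousLinearMap.id_apply, ih, this, ap, Function.iterate_succ_apply']
    ring

theorem ap0 (m : ℕ → ℝ) (n : ℕ) : ap m n 0 = m n := by
  induction n generalizing m with
  | zero => rfl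
  | succ n ih => simp [ap, ih]

theorem nr {T : X →L[ℝ] X} {x : X} {f : X →L[ℝ] ℝ} (p : f x = 1) (h : ∀ a b : ℝ, 0 < a →
    Dense (range fun n : ℕ => (⇑(a • T + b • ContinuousLinearMap.id ℝ X))^[n] x)) (l u : ℝ) :
    ¬∀ y, f (T (T y)) = l * f y + u * f (T y) := fun q => by
  set R := 1 + |l| + |u| with hR
  have r : 0 < R := by positivity
  have a : ∀ k, |f (T^[k] x)| + |f (T (T^[k] x))| ≤ R ^ k * (|f x| + |f (T x)|) := fun k => by
    induction k with
    | zero => simp
    | succ k ih =>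
      rw [Function.iterate_succ_apply', q, pow_succ', mul_assoc]
      refine le_trans ?_ (mul_le_mul_of_nonneg_left ih r.le)
      have := abs_add_le (l * f (T^[k] x)) (u * f (T (T^[k] x)))
      rw [abs_mul, abs_mul] at this
      nlinarith [abs_nonneg (f (T^[k] x)), abs_nonneg (f (T (T^[k] x))), abs_nonneg l, abs_nonneg u]
  obtain ⟨_, b, n, rfl⟩ := (h R⁻¹ (R⁻¹ * 0) (by positivity)).inter_open_nonempty {y | |f x| + |f (T x)| < f y}
    (isOpen_lt continuous_const f.continuous) ⟨(|f x| + |f (T x)| + 1) • x, by simp [p]⟩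
  simp only [mem_setOf_eq, it, ap0] at b
  rw [inv_pow, ← div_eq_inv_mul, lt_div_iff₀ (by positivity)] at b
  linarith [a n, le_abs_self (f (T^[n] x)), abs_nonneg (f (T (T^[n] x)))]

theorem sj {T : X →L[ℝ] X} {x : X} {f : X →L[ℝ] ℝ} (p : f x = 1)
    (h : ∀ l u : ℝ, ¬∀ y, f (T (T y)) = l * f y + u * f (T y)) (a b c : ℝ) :
    ∃ y, f y = a ∧ f (T y) = b ∧ f (T (T y)) = c := by
  obtain ⟨y, p0, p1⟩ : ∃ y, f y = 0 ∧ f (T y) = 1 := by
    by_contra! n
    refine h 0 (f (T x)) fun y => ?_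
    by_contra q
    have r : f (T (T y)) - f (T y) * f (T x) ≠ 0 := fun l => q (by linarith)
    exact n ((f (T (T y)) - f (T y) * f (T x))⁻¹ • (T y - f (T y) • x)) (by simp [p]) (by
      simpa using inv_mul_cancel₀ r)
  obtain ⟨z, q0, q1, q2⟩ : ∃ z, f z = 0 ∧ f (T z) = 0 ∧ f (T (T z)) = 1 := by
    by_contra! n
    refine h (f (T (T x)) - f (T x) * f (T (T y))) (f (T (T y))) fun v => ?_
    by_contra q
    have r : f (T (T v)) - f v * f (T (T x)) - (f (T v) - f v * f (T x)) * f (T (T y)) ≠ 0 := fun l => q (by linarith)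
    exact n ((f (T (T v)) - f v * f (T (T x)) - (f (T v) - f v * f (T x)) * f (T (T y)))⁻¹ •
      (v - f v • x - (f (T v) - f v * f (T x)) • y)) (by simp [p, p0]) (by simp [p1]) (by
      simpa using inv_mul_cancel₀ r)
  exact ⟨a • x + (b - a * f (T x)) • y + (c - a * f (T (T x)) - (b - a * f (T x)) * f (T (T y))) • z,
    by simp [p, p0, q0], by simp [p1, q1], by simp [q2]⟩

theorem main [LocallyConvexSpace ℝ X] [T2Space X] [Nontrivial X] (T : X →L[ℝ] X) : ¬∃ x : X, ∀ a b : ℝ, 0 < a →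
    Dense (range fun n : ℕ => (⇑(a • T + b • ContinuousLinearMap.id ℝ X))^[n] x) := by
  rintro ⟨x, h⟩
  have x0 : x ≠ 0 := by
    rintro rfl
    obtain ⟨_, b, n, rfl⟩ := (h 1 0 one_pos).inter_open_nonempty {0}ᶜ isOpen_compl_singleton
      (by simpa [Set.Nonempty] using exists_ne (0 : X))
    exact b (Function.iterate_fixed (map_zero _) n)
  obtain ⟨f, p⟩ := SeparatingDual.exists_eq_one (R := ℝ) x0
  obtain ⟨⟨c, β⟩, N, b⟩ := fin (m := fun k => f (T^[k] x)) (by simp [p])
  obtain ⟨y, y0, y1, y2⟩ := sj p (nr p h) 1 (-c) (1 + c ^ 2)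
  have := Module.punctured_nhds_neBot ℝ X
  let S := T + c • ContinuousLinearMap.id ℝ X
  have o : IsOpen ({y | Q (f y) (f (S y)) (f (S (S y))) (f (T y)) (f (T (S y))) (f (T (S (S y))))} ∩
      ({y | 1 / 2 < f (T (S y))} ∩ {y | f (T (S y)) < 2})) :=
    (oq (by fun_prop) (by fun_prop) (by fun_prop) (by fun_prop) (by fun_prop) (by fun_prop)).inter
      ((isOpen_lt (by fun_prop) (by fun_prop)).inter (isOpen_lt (by fun_prop) (by fun_prop)))
  have e := Real.exp_pos β
  obtain ⟨_, ⟨q, u, v⟩, ⟨n, rfl⟩, w⟩ := ((h _ (Real.exp β * c) e).sdiff_finite ((finite_lt_nat N).image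
    fun n => (⇑(Real.exp β • T + (Real.exp β * c) • ContinuousLinearMap.id ℝ X))^[n] x)).inter_open_nonempty _ o
    ⟨y, by
      have a1 : f (S y) = 0 := by simp [S, y0, y1]
      have b1 : f (T (S y)) = 1 := by simp [S, y1, y2]; ring
      have a2 : f (S (S y)) = 1 := by
        rw [show f (S (S y)) = f (T (S y)) + c * f (S y) by simp [S]; ring, a1, b1]
        simp
      simp only [mem_inter_iff, mem_setOf_eq, Q, a1, b1, a2, y0]
      norm_num⟩
  have k : ∀ g : X →L[ℝ] ℝ, (∀ z, g (S z) = g (T z) + c * g z) := fun g z => by simp [S]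
  have k1 : ∀ z, f (T (S z)) = f (T (T z)) + c * f (T z) := k (f ∘L T)
  have k2 : ∀ z, f (T (T (S z))) = f (T (T (T z))) + c * f (T (T z)) := k (f ∘L T ∘L T)
  have i0 := it T (Real.exp β) c x n f
  have i1 := it T (Real.exp β) c x n (f ∘L T)
  have i2 := it T (Real.exp β) c x n (f ∘L T ∘L T)
  have i3 := it T (Real.exp β) c x n (f ∘L T ∘L T ∘L T)
  simp only [ContinuousLinearMap.comp_apply] at i1 i2 i3
  simp only [mem_setOf_eq, k f, k1, k2, i0, i1, i2, i3] at q u v
  have t : 0 < Real.exp β ^ n := by positivity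
  have e1 : sh (fun k => f (T^[k] x)) = fun k => f (T (T^[k] x)) :=
    funext fun k => by simp only [sh, Function.iterate_succ_apply']
  refine b n (not_lt.1 fun l => w ⟨n, l, rfl⟩) ⟨qs t ?_, ?_⟩
  · simp only [ap, e1, Function.iterate_succ_apply']
    convert q using 1 <;> ring
  have s : Real.exp β ^ n * ap (fun k => f (T (T (T^[k] x)))) n c + c * (Real.exp β ^ n *
      ap (fun k => f (T (T^[k] x))) n c) = Real.exp β ^ n * ap (sh fun k => f (T^[k] x)) (n + 1) c := by
    simp only [ap, e1, Function.iterate_succ_apply']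
    ring
  rw [s] at u v
  generalize ap (sh fun k => f (T^[k] x)) (n + 1) c = B at u v
  have z : B ≠ 0 := fun l => by norm_num [l] at u
  have g : (n : ℝ) * β + Real.log B = Real.log (Real.exp β ^ n * B) := by
    rw [Real.log_mul t.ne' z, Real.log_pow, Real.log_exp]
  change |n * β + Real.log B| ≤ 1
  rw [g]
  generalize Real.exp β ^ n * B = r at u v
  have y := Real.log_le_sub_one_of_pos (show 0 < r by linarith)
  have y' := Real.one_sub_inv_le_log_of_pos (show 0 < r by linarith)
  have : r⁻¹ ≤ 2 := by rw [inv_le_comm₀ (by linarith) two_pos]; linarith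
  exact abs_le.2 ⟨by linarith, by linarith⟩

end Pool.Agent.H.MP_e13f12_an
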